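import Pool.Agent.H608R5.KL.Stm
import Pool.Agent.H608R4.KM.Grf

set_option autoImplicit false

namespace Pool.Agent.H608R5.KL

open Finset

theorem kp_pos : 0 < kp := by
  unfold kp
  positivity

theorem local_min (hA : S_KA) (hW : S_KW) (hE : S_KE) (hQ : S_KQ) (h5 : S_K5) {M : ℕ} (hM : 1 ≤ M) :
    IsLocalMin (fun t : V M → ℝ => ∑ v, ∑ w, W v w * (1 - Real.cos (t v - t w))) (th (M := M)) := by
  refine hA (V M) W th (kp / 32) (by have := kp_pos; positivity) (fun v w => (hW M v w).1) ?_ ?_
    (hE M) ?_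
  · intro v w
    rcases (hW M v w).2.1 with h | h <;> rw [h] <;> norm_num
  · intro v w
    rcases (hW M v w).2.1 with h | h <;> rw [h] <;> norm_num
  · intro f
    refine ⟨mu (fun x => f (0, false, x)), ?_⟩
    have h := h5 M hM (fun a x => f (a, false, x)) (fun a x => f (a, true, x))
    rw [hQ M f]
    have h2 : ∑ x : V M, (f x - mu fun x => f (0, false, x)) ^ 2 =
        ∑ a, ∑ x : I M, ((f (a, false, x) - mu (fun x => f (0, false, x))) ^ 2 +
          (f (a, true, x) - mu (fun x => f (0, false, x))) ^ 2) := by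
      rw [Fintype.sum_prod_type]
      refine Finset.sum_congr rfl fun a _ => ?_
      rw [Fintype.sum_prod_type, Fintype.sum_bool, Finset.sum_add_distrib, add_comm]
    rw [h2]
    linarith

theorem card_V (M : ℕ) : Fintype.card (V M) = 16 * M := by
  simp only [Fintype.card_prod, Fintype.card_bool, Fintype.card_fin, ZMod.card]
  ring

/-- the vertices numbered -/
noncomputable def eV (M : ℕ) : V M ≃ Fin (16 * M) := Fintype.equivFinOfCardEq (card_V M)

/-- the graph -/
def G (hW : S_KW) (M : ℕ) : SimpleGraph (Fin (16 * M)) where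
  Adj i j := W ((eV M).symm i) ((eV M).symm j) = 1
  symm := ⟨fun i j h => by rw [(hW M _ _).1]; exact h⟩
  loopless := ⟨fun i h => by
    rw [(hW M ((eV M).symm i) ((eV M).symm i)).2.2] at h
    norm_num at h⟩

theorem am_G (hW : S_KW) (M : ℕ) (i j : Fin (16 * M)) :
    Pool.Agent.H608R4.KM.am (G hW M) i j = W ((eV M).symm i) ((eV M).symm j) := by
  unfold Pool.Agent.H608R4.KM.am
  by_cases h : (G hW M).Adj i j
  · rw [if_pos h]
    have h' : W ((eV M).symm i) ((eV M).symm j) = 1 := h
    exact h'.symm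
  · rw [if_neg h]
    rcases (hW M ((eV M).symm i) ((eV M).symm j)).2.1 with h' | h'
    · exact h'.symm
    · exact absurd h' h

theorem deg_G (hW : S_KW) (hD : S_KD) {M : ℕ} (hM : 1 ≤ M) (i : Fin (16 * M)) :
    (((G hW M).neighborSet i).ncard : ℝ) = 11 * (M : ℝ) - 3 := by
  rw [← Pool.Agent.H608R4.KM.sum_am, ← hD M hM ((eV M).symm i)]
  rw [← Equiv.sum_comp (eV M)]
  refine Finset.sum_congr rfl fun w _ => ?_
  rw [am_G, Equiv.symm_apply_apply]

open scoped Classical in
theorem not_benign (hA : S_KA) (hW : S_KW) (hE : S_KE) (hQ : S_KQ) (h5 : S_K5) {M : ℕ} (hM : 1 ≤ M) :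
    ∃ θ : Fin (16 * M) → ℝ,
      IsLocalMin (fun t : Fin (16 * M) → ℝ => ∑ i, ∑ j,
        if i < j ∧ (G hW M).Adj i j then 1 - Real.cos (t i - t j) else 0) θ ∧
      ∃ i j, θ i - θ j = Real.pi / 2 := by
  have h0 := local_min hA hW hE hQ h5 hM
  refine ⟨fun i => th ((eV M).symm i), ?_, ?_⟩
  · have hc : Continuous (fun t : Fin (16 * M) → ℝ => fun v : V M => t (eV M v)) := by
      fun_prop
    have hct : Filter.Tendsto (fun t : Fin (16 * M) → ℝ => fun v : V M => t (eV M v))
        (nhds (fun i => th ((eV M).symm i))) (nhds (th (M := M))) := by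
      have h1 := hc.tendsto (fun i => th ((eV M).symm i))
      have h2 : (fun v : V M => th ((eV M).symm (eV M v))) = (th (M := M)) := by
        funext v
        rw [Equiv.symm_apply_apply]
      simp only [h2] at h1
      exact h1
    have h1 : ∀ᶠ t in nhds (th (M := M)), ∑ v, ∑ w, W v w * (1 - Real.cos (th v - th w)) ≤
        ∑ v, ∑ w, W v w * (1 - Real.cos (t v - t w)) := h0
    have key : ∀ t : Fin (16 * M) → ℝ, ∑ v, ∑ w, W v w * (1 - Real.cos (t (eV M v) - t (eV M w))) =
        2 * ∑ i, ∑ j, if i < j ∧ (G hW M).Adj i j then 1 - Real.cos (t i - t j) else 0 := by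
      intro t
      rw [← Pool.Agent.H608R4.KM.energy_double]
      rw [← Equiv.sum_comp (eV M)]
      refine Finset.sum_congr rfl fun v _ => ?_
      rw [← Equiv.sum_comp (eV M)]
      refine Finset.sum_congr rfl fun w _ => ?_
      rw [am_G, Equiv.symm_apply_apply, Equiv.symm_apply_apply]
    have h3 := hct.eventually h1
    have h4 := key (fun i => th ((eV M).symm i))
    simp only [Equiv.symm_apply_apply] at h4
    show ∀ᶠ t in nhds (fun i => th ((eV M).symm i)), _ ≤ _
    filter_upwards [h3] with t ht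
    rw [h4, key t] at ht
    linarith
  · refine ⟨eV M (1, false, false, ⟨0, hM⟩), eV M (0, false, false, ⟨0, hM⟩), ?_⟩
    simp only [Equiv.symm_apply_apply]
    unfold th
    have e1 : (1 : ZMod 4).val = 1 := rfl
    have e0 : (0 : ZMod 4).val = 0 := rfl
    simp [e1, e0]

end Pool.Agent.H608R5.KL
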