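import Pool.Agent.H608R5.KL.Asm
import Pool.Agent.H608R4.KM.BelowThreeQuarters
import Pool.Agent.TH667.KL.KA
import Pool.Agent.TH11.KL.KT
import Pool.Agent.TH200.KL.KW
import Pool.Agent.TH230.KL.KD
import Pool.Agent.TH547.KL.KE
import Pool.Agent.TH31.KL.KQ
import Pool.Agent.TH811.KL.K1
import Pool.Agent.TH985.KL.K2
import Pool.Agent.TH863.KL.K3
import Pool.Agent.TH969.KL.K4
import Pool.Agent.TH554.KL.K5

/-!
# The density threshold of the homogeneous Kuramoto model is at least `11/16`

For a graph `G` on `{1, …, n}` let `E(θ) = ∑_{i<j, i ~ j} (1 - cos (θ_i - θ_j))`. `G` is benign if every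
local minimum of `E` is synchronised (all `θ_i` equal modulo `2π`). Let `μ_c` be the infimum of the
`μ ∈ [0, 1]` such that every graph with all degrees at least `μ (n - 1)` is benign.

We show `μ_c ≥ 11/16 = 0.6875`: for every `M ≥ 1` there is a graph on `16 M` vertices, regular of degree
`11 M - 3`, which is not benign.

Construction. The vertices are `(a, τ, h, i)` with `a ∈ ℤ/4`, `τ ∈ {A, B}`, `h ∈ {0, 1}`,
`i ∈ {1, …, M}`; the phase is `a π/2` for the type `A` and `a π/2 + arctan (1/2)` for the type `B`.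
Two vertices of the same type are adjacent when their clusters `a` are equal or differ by `±1`.
`A_a` and `B_a` are completely joined, `A_a` and `B_{a-1}` are completely joined except for the pairs
with the same `(h, i)`, `A_a` and `B_{a+1}` (phase difference `π/2 + arctan (1/2)`, a negative coupling)
are joined exactly for `h = h'`, `i ≠ i'`, and `A_a`, `B_{a+2}` are not joined.

The equilibrium equation is `2M sin β = M cos β`, i.e. `tan β = 1/2`. With the group means and variances
the Hessian form is at least `κ m ∑ (variances + p² + q²)`, `m = 2M`, `κ = 1/√5`, `p`, `q` the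
differences of consecutive means: the form is positive modulo constants. The coercivity on the means
comes from terms of the order `m` only (the leading terms of the order `m²` are degenerate on the
differences of mean zero).
-/

set_option autoImplicit false

namespace Pool.Agent.H608R5.KL.ElevenSixteenths

open Finset

open scoped Classical in
/-- The energy `E(θ) = ∑_{i<j, i ~ j} (1 - cos (θ_i - θ_j))` of the homogeneous Kuramoto model. -/
noncomputable def energy {n : ℕ} (G : SimpleGraph (Fin n)) (θ : Fin n → ℝ) : ℝ :=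
  ∑ i, ∑ j, if i < j ∧ G.Adj i j then 1 - Real.cos (θ i - θ j) else 0

/-- `G` is benign: every local minimum of the energy is a synchronised state (all coordinates are equal
modulo `2π`). -/
def Benign {n : ℕ} (G : SimpleGraph (Fin n)) : Prop :=
  ∀ θ : Fin n → ℝ, IsLocalMin (energy G) θ → ∀ i j, ∃ m : ℤ, θ i - θ j = 2 * Real.pi * m

/-- The class `𝒢_μ`: every vertex has at least `μ (n - 1)` neighbours. -/
def InClass (μ : ℝ) {n : ℕ} (G : SimpleGraph (Fin n)) : Prop :=
  ∀ v, μ * ((n : ℝ) - 1) ≤ ((G.neighborSet v).ncard : ℝ)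

/-- The critical constant `μ_c`: the infimum of the `μ ∈ [0, 1]` such that every graph of the class
`𝒢_μ` is benign. -/
noncomputable def muC : ℝ :=
  sInf {μ : ℝ | 0 ≤ μ ∧ μ ≤ 1 ∧ ∀ n : ℕ, 2 ≤ n → ∀ G : SimpleGraph (Fin n), InClass μ G → Benign G}

open Pool.Agent.H608R5.KL in
theorem example_graph (M : ℕ) (hM : 1 ≤ M) :
    ∃ G : SimpleGraph (Fin (16 * M)),
      (∀ v, (G.neighborSet v).ncard = 11 * M - 3) ∧ ¬ Benign G := by
  have hKT := Pool.Agent.TH11.KL.t_KT
  have hKW := Pool.Agent.TH200.KL.t_KW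
  obtain ⟨θ, hθ, i, j, hij⟩ := 
    not_benign Pool.Agent.TH667.KL.t_KA hKW (Pool.Agent.TH547.KL.t_KE hKT) (Pool.Agent.TH31.KL.t_KQ hKT)
      (Pool.Agent.TH554.KL.t_K5 Pool.Agent.TH811.KL.t_K1 Pool.Agent.TH985.KL.t_K2
        Pool.Agent.TH863.KL.t_K3 Pool.Agent.TH969.KL.t_K4) hM
  refine ⟨Pool.Agent.H608R5.KL.G hKW M, ?_, ?_⟩
  · intro v
    have h := deg_G hKW Pool.Agent.TH230.KL.t_KD hM v
    have h2 : ((((Pool.Agent.H608R5.KL.G hKW M).neighborSet v).ncard : ℕ) : ℝ) =
        ((11 * M - 3 : ℕ) : ℝ) := by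
      rw [h, Nat.cast_sub (by omega)]
      push_cast
      ring
    exact_mod_cast h2
  · intro hB
    obtain ⟨k, hk⟩ := hB θ hθ i j
    rw [hij] at hk
    have hpi := Real.pi_pos
    have h1 : (1 : ℝ) = 4 * k := by
      have : Real.pi * 1 = Real.pi * (4 * k) := by linarith
      exact mul_left_cancel₀ hpi.ne' this
    have h2 : (1 : ℤ) = 4 * k := by exact_mod_cast h1
    omega

/-- **The density threshold of the Kuramoto model is at least `11/16`.** For every `M ≥ 1` there is a
`(11 M - 3)`-regular graph on `16 M` vertices with a local minimum of the energy which is not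
synchronised; hence `μ_c ≥ 11/16`. -/
theorem result :
    (∀ M : ℕ, 1 ≤ M → ∃ G : SimpleGraph (Fin (16 * M)),
      (∀ v, (G.neighborSet v).ncard = 11 * M - 3) ∧ ¬ Benign G) ∧
    11 / 16 ≤ muC := by
  refine ⟨example_graph, ?_⟩
  have hne : ({μ : ℝ | 0 ≤ μ ∧ μ ≤ 1 ∧
      ∀ n : ℕ, 2 ≤ n → ∀ G : SimpleGraph (Fin n), InClass μ G → Benign G}).Nonempty :=
    ⟨3 / 4 - 1 / 10 ^ 8, by norm_num, by norm_num, fun n hn G hG =>
      Pool.Agent.H608R4.KM.BelowThreeQuarters.benign hn G hG⟩
  refine le_csInf hne ?_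
  rintro μ ⟨h0, -, hμ⟩
  by_contra hlt
  rw [not_le] at hlt
  obtain ⟨M, hM⟩ := exists_nat_gt (3 / (11 - 16 * μ))
  have hpos : 0 < 11 - 16 * μ := by linarith
  have hM0 : (0 : ℝ) < M := lt_trans (by positivity) hM
  have hM1 : 1 ≤ M := by exact_mod_cast hM0
  obtain ⟨G, hG, hB⟩ := example_graph M hM1
  apply hB
  refine hμ (16 * M) (by omega) G ?_
  intro v
  rw [hG v, Nat.cast_sub (by omega)]
  rw [div_lt_iff₀ hpos] at hM
  push_cast
  nlinarith

end Pool.Agent.H608R5.KL.ElevenSixteenths
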